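import Mathlib
import Pool.Agent.H12.Helly

namespace Pool.Agent.Results.MP_baf67b_al.Helly

open MvPolynomial

variable {K : Type} [Field K] {N : ℕ}

/-- Zariski closed subset of the diagonal group `(Kˣ)^N` -/
def ZClosed (S : Set (Fin N → Kˣ)) : Prop :=
  ∃ F : Set (MvPolynomial (Fin N) K), S = {t | ∀ f ∈ F, eval (fun i => (t i : K)) f = 0}

/-- the coordinates of `t` and their inverses -/
def lau (t : Fin N → Kˣ) : Fin N ⊕ Fin N → K :=
  Sum.elim (fun i => (t i : K)) fun i => (t i : K)⁻¹

/-- the characters of `G`: homomorphisms `G → Kˣ` given by a Laurent polynomial -/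
def chars (G : Subgroup (Fin N → Kˣ)) : Set (G →* Kˣ) :=
  {χ | ∃ f : MvPolynomial (Fin N ⊕ Fin N) K, ∀ g : G, (χ g : K) = eval (lau g.1) f}

/-- the least size of a finite set generating the subgroup `S` of a group `A` -/
noncomputable def gens {A : Type} [Group A] (S : Set A) : ℕ :=
  sInf {r | ∃ s : Finset A, s.card = r ∧ (Subgroup.closure (s : Set A) : Set A) = S}

/-- the minimal number of generators of the character group -/
noncomputable def rk (G : Subgroup (Fin N → Kˣ)) : ℕ := gens (chars G)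

/-- a Zariski closed coset `g H` in `G` -/
def IsCoset (G : Subgroup (Fin N → Kˣ)) (C : Set (Fin N → Kˣ)) : Prop :=
  ∃ g ∈ G, ∃ H : Subgroup (Fin N → Kˣ), H ≤ G ∧ ZClosed (H : Set (Fin N → Kˣ)) ∧
    C = {x | ∃ h ∈ H, x = g * h}

/-- the Helly property with constant `d` -/
def HellyProp (G : Subgroup (Fin N → Kˣ)) (d : ℕ) : Prop :=
  ∀ (n : ℕ) (C : Fin n → Set (Fin N → Kˣ)), (∀ i, IsCoset G (C i)) → ⋂ i, C i = ∅ →
    ∃ S : Finset (Fin n), S.card ≤ d ∧ ⋂ i ∈ S, C i = ∅

open Pool.Agent.H12.Helly in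
theorem result (K : Type) [Field K] [IsAlgClosed K] (N : ℕ) (G : Subgroup (Fin N → Kˣ))
    (_hG : ZClosed (G : Set (Fin N → Kˣ))) :
    ∃ κ : ℕ, IsLeast {d | 0 < d ∧ HellyProp G d} κ ∧ κ ≤ 1 + rk G := by
  classical
  let co : Fin N → (G →* Kˣ) := fun j => (Pi.evalMonoidHom (fun _ => Kˣ) j).comp G.subtype
  have one_c : (1 : G →* Kˣ) ∈ chars G := ⟨1, fun g => by simp⟩
  have mul_c : ∀ a b : G →* Kˣ, a ∈ chars G → b ∈ chars G → a * b ∈ chars G := by
    rintro a b ⟨f, hf⟩ ⟨f', hf'⟩
    exact ⟨f * f', fun g => by simp [hf, hf']⟩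
  have hne : {r | ∃ s : Finset (G →* Kˣ), s.card = r ∧
      (Subgroup.closure (s : Set (G →* Kˣ)) : Set (G →* Kˣ)) = chars G}.Nonempty := by
    refine ⟨_, Finset.univ.image co, rfl, Set.Subset.antisymm ?_ ?_⟩
    · intro χ hχ
      induction hχ using Subgroup.closure_induction'' with
      | mem x hx =>
        obtain ⟨j, -, rfl⟩ := Finset.mem_image.1 hx
        exact ⟨X (.inl j), fun g => by simp [co, lau]⟩
      | inv_mem x hx =>
        obtain ⟨j, -, rfl⟩ := Finset.mem_image.1 hx
        exact ⟨X (.inr j), fun g => by simp [co, lau]⟩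
      | one => exact one_c
      | mul x y _ _ hx hy => exact mul_c _ _ hx hy
    · rintro χ ⟨f, hf⟩
      by_contra h0
      let mo : (Fin N ⊕ Fin N →₀ ℕ) → (G →* Kˣ) := fun d =>
        ∏ j, (Sum.elim co (fun i => (co i)⁻¹) j) ^ d j
      have hmo : ∀ d, mo d ∈ Subgroup.closure ((Finset.univ.image co : Finset _) : Set (G →* Kˣ)) :=
        fun d => by
          refine Subgroup.prod_mem _ fun j _ => Subgroup.pow_mem _ ?_ _
          rcases j with j | j
          · exact Subgroup.subset_closure (Finset.mem_image_of_mem co (Finset.mem_univ j))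
          · exact inv_mem
              (Subgroup.subset_closure (Finset.mem_image_of_mem co (Finset.mem_univ j)))
      have := ded (Finset.insertNone f.support) (fun o => o.elim (-1) fun d => coeff d f)
        (fun o => (Units.coeHom K).comp (o.elim χ mo)) (fun g => by
          rw [Finset.sum_insertNone]
          have := hf g
          rw [eval_eq'] at this
          simp only [Option.elim, MonoidHom.comp_apply, Units.coeHom_apply, this, neg_one_mul]
          rw [neg_add_eq_zero]
          refine Finset.sum_congr rfl fun d _ => ?_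
          simp [mo, co, lau])
        (fun o => o.elim 1 fun _ => 0) (by
          have : ∀ d, (Units.coeHom K).comp χ ≠ (Units.coeHom K).comp (mo d) := fun d e =>
            h0 ((show mo d = χ from MonoidHom.ext fun g =>
              Units.ext (DFunLike.congr_fun e g).symm) ▸ hmo d)
          rintro (_ | d) (_ | e) h
          · rfl
          · exact absurd h (this _)
          · exact absurd h.symm (this _)
          · rfl)
      simp at this
  have main : HellyProp G (1 + rk G) := by
    obtain ⟨s, hs1, hs2⟩ := Nat.sInf_mem hne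
    intro n C hC h0
    by_contra! h1
    choose g hg H hH hcl hCe using hC
    let ev : G → (s → ℤ) →ₗ[ℤ] Additive Kˣ := fun t =>
      Fintype.linearCombination ℤ fun k : s => Additive.ofMul (k.1 t)
    have hev : ∀ a b v, ev (a * b) v = ev a v + ev b v := fun a b v => by
      simp [ev, Fintype.linearCombination_apply, Finset.sum_add_distrib]
    let Y : Fin n → Submodule ℤ (s → ℤ) := fun i => ⨅ h : H i, LinearMap.ker (ev ⟨h, hH i h.2⟩)
    have hY : ∀ i v, v ∈ Y i ↔ ∀ h (hh : h ∈ H i), ev ⟨h, hH i hh⟩ v = 0 := fun i v => by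
      simp only [Y, Submodule.mem_iInf, LinearMap.mem_ker, Subtype.forall]
    obtain ⟨ψ, hψ⟩ := core (baer K) Y (fun i => ev ⟨g i, hg i⟩) (fun S hS => by
      obtain ⟨t, ht⟩ := h1 S (by rw [rk, gens, ← hs1]; simpa using hS)
      by_cases e : t ∈ G
      · refine ⟨ev ⟨t, e⟩, fun i hi y hy => ?_⟩
        have := Set.mem_iInter₂.1 ht i hi
        rw [hCe i] at this
        obtain ⟨h, hh, rfl⟩ := this
        rw [show (⟨g i * h, e⟩ : G) = ⟨g i, hg i⟩ * ⟨h, hH i hh⟩ from rfl, hev,
          (hY i y).1 hy h hh, add_zero]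
      · refine ⟨0, fun i hi => absurd ?_ e⟩
        have := Set.mem_iInter₂.1 ht i hi
        rw [hCe i] at this
        obtain ⟨h, hh, rfl⟩ := this
        exact mul_mem (hg i) (hH i hh))
    have hl : ∀ χ ∈ Subgroup.closure (s : Set (G →* Kˣ)), ∃ v, ∀ x, ev x v = Additive.ofMul (χ x) := by
      intro χ hχ
      induction hχ using Subgroup.closure_induction with
      | mem x hx => exact ⟨Pi.single ⟨x, hx⟩ 1, fun _ => by simp [ev]⟩
      | one => exact ⟨0, fun _ => map_zero _⟩
      | mul x y _ _ hx hy =>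
        obtain ⟨v, hv⟩ := hx
        obtain ⟨w, hw⟩ := hy
        exact ⟨v + w, fun _ => by rw [map_add, hv, hw]; rfl⟩
      | inv x _ hx =>
        obtain ⟨v, hv⟩ := hx
        exact ⟨-v, fun _ => by rw [map_neg, hv]; rfl⟩
    choose l hl using fun j => hl (co j) (by
      show co j ∈ (Subgroup.closure (s : Set (G →* Kˣ)) : Set (G →* Kˣ))
      rw [hs2]
      exact ⟨X (.inl j), fun g => by simp [co, lau]⟩)
    let t : Fin N → Kˣ := fun j => (ψ (l j)).toMul
    refine Set.eq_empty_iff_forall_notMem.1 h0 t (Set.mem_iInter.2 fun i => ?_)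
    rw [hCe i]
    refine ⟨(g i)⁻¹ * t, ?_, by simp⟩
    obtain ⟨F, hF⟩ := hcl i
    show _ ∈ (H i : Set (Fin N → Kˣ))
    rw [hF]
    intro f hf
    let mo : (Fin N →₀ ℕ) → (H i →* K) := fun d =>
      (Units.coeHom K).comp (∏ j, ((Pi.evalMonoidHom (fun _ => Kˣ) j).comp (H i).subtype) ^ d j)
    have hmo : ∀ d x, mo d x = ∏ j, (x.1 j : K) ^ d j := fun d x => by simp [mo]
    rw [eval_eq']
    refine ded f.support (fun d => coeff d f) mo (fun x => ?_) _ fun d e hde => ?_
    · have : x.1 ∈ (H i : Set (Fin N → Kˣ)) := x.2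
      rw [hF] at this
      simpa [eval_eq', hmo] using this f hf
    · have p1 : ∀ (d : Fin N →₀ ℕ) (x : G), (ev x (∑ j, d j • l j)).toMul = ∏ j, x.1 j ^ d j :=
        fun d x => by
          simp only [map_sum, map_nsmul, hl, toMul_sum, toMul_nsmul, toMul_ofMul]; rfl
      have p2 : ∀ d : Fin N →₀ ℕ, (ψ (∑ j, d j • l j)).toMul = ∏ j, t j ^ d j :=
        fun d => by simp only [map_sum, map_nsmul, toMul_sum, toMul_nsmul, t]
      have p3 := hψ i (∑ j, d j • l j - ∑ j, e j • l j) ((hY i _).2 fun h hh => by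
        rw [map_sub, sub_eq_zero]
        apply Additive.toMul.injective
        rw [p1, p1]
        have := DFunLike.congr_fun hde ⟨h, hh⟩
        rw [hmo, hmo] at this
        exact Units.ext (by simpa using this))
      rw [map_sub, map_sub] at p3
      have p4 := congrArg Additive.toMul p3
      rw [toMul_sub, toMul_sub,
        p1, p1, p2, p2, div_eq_div_iff_mul_eq_mul] at p4
      have p5 : ∏ j, ((g i)⁻¹ * t) j ^ d j = ∏ j, ((g i)⁻¹ * t) j ^ e j := by
        simp only [Pi.mul_apply, Pi.inv_apply, mul_pow, Finset.prod_mul_distrib, inv_pow,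
          Finset.prod_inv_distrib]
        rw [inv_mul_eq_iff_eq_mul, ← mul_assoc, mul_right_comm, eq_mul_inv_iff_mul_eq, p4, mul_comm]
      simpa using congrArg Units.val p5
  have hne2 : {d | 0 < d ∧ HellyProp G d}.Nonempty := ⟨1 + rk G, by omega, main⟩
  exact ⟨sInf {d | 0 < d ∧ HellyProp G d}, ⟨Nat.sInf_mem hne2, fun _ h => Nat.sInf_le h⟩,
    Nat.sInf_le ⟨by omega, main⟩⟩

end Pool.Agent.Results.MP_baf67b_al.Helly
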